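import Pool.Agent.H78.Integral

namespace Pool.Agent.Results.MP_4ce577_al.OnlyTrivial

open Pool.Agent.H78.Integral

/-- A finite group `G` has an integral `H` with `Var H` equal to the class of integrals of groups in
`Var G` exactly when `G` is trivial; and non-trivial finite integrable groups exist. -/
theorem result :
    (∀ (G : Type) [Group G] [Finite G],
      (∃ (H : Type) (_ : Group H), IsIntegral H G ∧ Var H = Ints (Var G)) ↔ Subsingleton G) ∧
    ∃ (G : Type) (_ : Group G), Finite G ∧ Nontrivial G ∧ ∃ (H : Type) (_ : Group H), IsIntegral H G :=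
  ⟨main, ex⟩

end Pool.Agent.Results.MP_4ce577_al.OnlyTrivial
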